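import Mathlib

set_option autoImplicit false

/-!
# Zigzag chains of arcs

Vertices are `Fin n`, placed on a circle.  For an arc `(x, y)` we look at the open interval going
clockwise from `x` to `y`.
-/

namespace Pool.Agent.Helper408.Zig

open Finset
open scoped Classical

variable {n : ℕ}

/-- clockwise distance -/
def d (n x y : ℕ) : ℕ := if x ≤ y then y - x else y + n - x

/-- `z` lies strictly inside the clockwise interval from `x` to `y` -/
def Ins (x z y : Fin n) : Prop := 0 < d n x z ∧ d n x z < d n x y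

theorem ins_left {x y z w : Fin n} (h : Ins x z y) (hw : Ins x w z) : Ins x w y := by
  exact ⟨hw.1, hw.2.trans h.2⟩

theorem ins_right {x y z w : Fin n} (h : Ins x z y) (hw : Ins z w y) : Ins x w y := by
  obtain ⟨x, hx⟩ := x
  obtain ⟨y, hy⟩ := y
  obtain ⟨z, hz⟩ := z
  obtain ⟨w, hw'⟩ := w
  simp only [Ins, d] at *
  split_ifs at * <;> omega

theorem not_ins_left (x y : Fin n) : ¬ Ins x x y := by
  intro h
  have := h.1
  simp [d] at this

theorem not_ins_right (x y : Fin n) : ¬ Ins x y y := by
  intro h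
  exact lt_irrefl _ h.2

theorem ins_or {x y y' : Fin n} (h : x ≠ y) (h' : x ≠ y') (hne : y ≠ y') :
    Ins x y y' ∨ Ins x y' y := by
  obtain ⟨x, hx⟩ := x
  obtain ⟨y, hy⟩ := y
  obtain ⟨z, hz⟩ := y'
  simp only [ne_eq, Fin.mk.injEq] at h h' hne
  simp only [Ins, d]
  split_ifs <;> omega

theorem ins_or' {x x' y : Fin n} (h : x ≠ y) (h' : x' ≠ y) (hne : x ≠ x') :
    Ins x x' y ∨ Ins x' x y := by
  obtain ⟨x, hx⟩ := x
  obtain ⟨y, hy⟩ := y
  obtain ⟨z, hz⟩ := x'
  simp only [ne_eq, Fin.mk.injEq] at h h' hne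
  simp only [Ins, d]
  split_ifs <;> omega

/-- a zigzag chain with `t` further arcs starts at the arc `(x, y)`; the flag `b t` says whether
the first step turns around the source (`true`) or around the sink -/
def Good (E : Finset (Fin n × Fin n)) (b : ℕ → Prop) : ℕ → Fin n → Fin n → Prop
  | 0, x, y => (x, y) ∈ E
  | t + 1, x, y => (x, y) ∈ E ∧
      ((b t ∧ ∃ z, Ins x z y ∧ Good E b t x z) ∨ (¬ b t ∧ ∃ z, Ins x z y ∧ Good E b t z y))

theorem Good.mem {E : Finset (Fin n × Fin n)} {b : ℕ → Prop} {t : ℕ} {x y : Fin n}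
    (h : Good E b t x y) : (x, y) ∈ E := by
  cases t with
  | zero => exact h
  | succ t => exact h.1

theorem count (E : Finset (Fin n × Fin n)) (hloop : ∀ v : Fin n, (v, v) ∉ E) (b : ℕ → Prop)
    (t : ℕ) : (E.filter (fun e => ¬ Good E b t e.1 e.2)).card ≤ t * n := by
  have hne : ∀ {x y : Fin n}, (x, y) ∈ E → x ≠ y := by
    rintro x y h rfl
    exact hloop x h
  induction t with
  | zero =>
    have : (E.filter (fun e => ¬ Good E b 0 e.1 e.2)) = ∅ := by
      rw [Finset.filter_eq_empty_iff]
      intro e he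
      simp only [Good, not_not]
      exact he
    rw [this]
    simp
  | succ t ih =>
    have hsub : (E.filter (fun e => ¬ Good E b (t + 1) e.1 e.2)) ⊆
        (E.filter (fun e => ¬ Good E b t e.1 e.2)) ∪
        (E.filter (fun e => Good E b t e.1 e.2 ∧ ¬ Good E b (t + 1) e.1 e.2)) := by
      intro e he
      simp only [Finset.mem_filter, Finset.mem_union] at he ⊢
      by_cases h : Good E b t e.1 e.2
      · exact Or.inr ⟨he.1, h, he.2⟩
      · exact Or.inl ⟨he.1, h⟩
    have hsecond : (E.filter (fun e => Good E b t e.1 e.2 ∧ ¬ Good E b (t + 1) e.1 e.2)).card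
        ≤ n := by
      by_cases hb : b t
      · have : Set.InjOn (fun e : Fin n × Fin n => e.1)
            (E.filter (fun e => Good E b t e.1 e.2 ∧ ¬ Good E b (t + 1) e.1 e.2) :
              Set (Fin n × Fin n)) := by
          rintro ⟨x, y⟩ he ⟨x', y'⟩ he' hxx
          simp only at hxx
          subst hxx
          simp only [Finset.coe_filter, Set.mem_setOf_eq] at he he'
          by_contra hyy
          have hyy' : y ≠ y' := fun h => hyy (by rw [h])
          rcases ins_or (hne he.1) (hne he'.1) hyy' with h | h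
          · exact he'.2.2 ⟨he'.1, Or.inl ⟨hb, y, h, he.2.1⟩⟩
          · exact he.2.2 ⟨he.1, Or.inl ⟨hb, y', h, he'.2.1⟩⟩
        have h2 := Finset.card_le_card_of_injOn (t := (Finset.univ : Finset (Fin n)))
          (fun e : Fin n × Fin n => e.1) (by intro _ _; simp) this
        simpa using h2
      · have : Set.InjOn (fun e : Fin n × Fin n => e.2)
            (E.filter (fun e => Good E b t e.1 e.2 ∧ ¬ Good E b (t + 1) e.1 e.2) :
              Set (Fin n × Fin n)) := by
          rintro ⟨x, y⟩ he ⟨x', y'⟩ he' hyy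
          simp only at hyy
          subst hyy
          simp only [Finset.coe_filter, Set.mem_setOf_eq] at he he'
          by_contra hxx
          have hxx' : x ≠ x' := fun h => hxx (by rw [h])
          rcases ins_or' (hne he.1) (hne he'.1) hxx' with h | h
          · exact he.2.2 ⟨he.1, Or.inr ⟨hb, x', h, he'.2.1⟩⟩
          · exact he'.2.2 ⟨he'.1, Or.inr ⟨hb, x, h, he.2.1⟩⟩
        have h2 := Finset.card_le_card_of_injOn (t := (Finset.univ : Finset (Fin n)))
          (fun e : Fin n × Fin n => e.2) (by intro _ _; simp) this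
        simpa using h2
    calc _ ≤ _ := Finset.card_le_card hsub
      _ ≤ _ := Finset.card_union_le _ _
      _ ≤ t * n + n := Nat.add_le_add ih hsecond
      _ = (t + 1) * n := by ring

/-- the chain as two sequences, indexed by the number of remaining steps -/
theorem extract (E : Finset (Fin n × Fin n)) (b : ℕ → Prop) (t : ℕ) :
    ∀ x y : Fin n, Good E b t x y → ∃ xs ys : ℕ → Fin n, xs t = x ∧ ys t = y ∧
      (∀ r, r ≤ t → (xs r, ys r) ∈ E) ∧
      ∀ r, r < t →
        (b r → xs r = xs (r + 1) ∧ Ins (xs (r + 1)) (ys r) (ys (r + 1))) ∧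
        (¬ b r → ys r = ys (r + 1) ∧ Ins (xs (r + 1)) (xs r) (ys (r + 1))) := by
  induction t with
  | zero =>
    intro x y h
    exact ⟨fun _ => x, fun _ => y, rfl, rfl, fun r _ => h, fun r hr => absurd hr (by omega)⟩
  | succ t ih =>
    intro x y h
    obtain ⟨hE, h⟩ := h
    have key : ∀ x' y' : Fin n, Good E b t x' y' →
        ((b t → x' = x ∧ Ins x y' y) ∧ (¬ b t → y' = y ∧ Ins x x' y)) →
        ∃ xs ys : ℕ → Fin n, xs (t + 1) = x ∧ ys (t + 1) = y ∧
      (∀ r, r ≤ t + 1 → (xs r, ys r) ∈ E) ∧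
      ∀ r, r < t + 1 →
        (b r → xs r = xs (r + 1) ∧ Ins (xs (r + 1)) (ys r) (ys (r + 1))) ∧
        (¬ b r → ys r = ys (r + 1) ∧ Ins (xs (r + 1)) (xs r) (ys (r + 1))) := by
      intro x' y' hg hstep
      obtain ⟨xs, ys, h1, h2, h3, h4⟩ := ih x' y' hg
      refine ⟨fun r => if r ≤ t then xs r else x, fun r => if r ≤ t then ys r else y, ?_, ?_,
        ?_, ?_⟩
      · simp
      · simp
      · intro r hr
        by_cases hrt : r ≤ t
        · simp only [hrt, if_true]
          exact h3 r hrt
        · simp only [hrt, if_false]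
          exact hE
      · intro r hr
        by_cases hrt : r < t
        · have e1 : r ≤ t := hrt.le
          have e2 : r + 1 ≤ t := hrt
          simp only [e1, e2, if_true]
          exact h4 r hrt
        · have e0 : r = t := by omega
          subst e0
          have e2 : ¬ (r + 1 ≤ r) := by omega
          simp only [le_refl, e2, if_true, if_false]
          rw [h1, h2]
          exact hstep
    rcases h with ⟨hb, z, hz, hg⟩ | ⟨hb, z, hz, hg⟩
    · exact key x z hg ⟨fun _ => ⟨rfl, hz⟩, fun h => absurd hb h⟩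
    · exact key z y hg ⟨fun h => absurd h hb, fun _ => ⟨rfl, hz⟩⟩

/-- many arcs give a chain for every sequence of flags -/
theorem exists_chain (E : Finset (Fin n × Fin n)) (hloop : ∀ v : Fin n, (v, v) ∉ E)
    (b : ℕ → Prop) (t : ℕ) (hE : t * n < E.card) :
    ∃ xs ys : ℕ → Fin n, 
      (∀ r, r ≤ t → (xs r, ys r) ∈ E) ∧
      ∀ r, r < t →
        (b r → xs r = xs (r + 1) ∧ Ins (xs (r + 1)) (ys r) (ys (r + 1))) ∧
        (¬ b r → ys r = ys (r + 1) ∧ Ins (xs (r + 1)) (xs r) (ys (r + 1))) := by
  have hc := count E hloop b t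
  have : ∃ e ∈ E, Good E b t e.1 e.2 := by
    by_contra hno
    push Not at hno
    have : E.filter (fun e => ¬ Good E b t e.1 e.2) = E := by
      rw [Finset.filter_eq_self]
      exact hno
    rw [this] at hc
    omega
  obtain ⟨e, -, he⟩ := this
  obtain ⟨xs, ys, -, -, h3, h4⟩ := extract E b t e.1 e.2 he
  exact ⟨xs, ys, h3, h4⟩

end Pool.Agent.Helper408.Zig
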