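import Mathlib
import Pool.Agent.Helper408.Zig

set_option autoImplicit false

/-!
# Embedding antidirected caterpillars given in zigzag order
-/

namespace Pool.Agent.Helper408.Cat

open Finset Pool.Agent.Helper408.Zig
open scoped Classical

variable {n : ℕ}

/-- A caterpillar in zigzag order: vertex `i + 1` is attached to vertex `i` or to the vertex to
which `i` is attached. -/
theorem embed (k : ℕ) (hk : 1 ≤ k) (q : ℕ → ℕ) (hq1 : q 1 = 0)
    (hq : ∀ i, 1 ≤ i → i < k → q (i + 1) = i ∨ q (i + 1) = q i)
    (src : ℕ → Prop) (hsrc : ∀ i, 1 ≤ i → i ≤ k → (src i ↔ ¬ src (q i)))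
    (E : Finset (Fin n × Fin n)) (hloop : ∀ v : Fin n, (v, v) ∉ E)
    (hE : (k - 1) * n < E.card) :
    ∃ F : ℕ → Fin n, (∀ i j, i ≤ k → j ≤ k → F i = F j → i = j) ∧
      ∀ i, 1 ≤ i → i ≤ k → (src i → (F i, F (q i)) ∈ E) ∧ (¬ src i → (F (q i), F i) ∈ E) := by
  obtain ⟨xs, ys, h3, h4⟩ := exists_chain E hloop (fun r => src (q (k - r))) (k - 1) hE
  set X : ℕ → Fin n := fun i => xs (k - i) with hX
  set Y : ℕ → Fin n := fun i => ys (k - i) with hY
  have hE' : ∀ i, 1 ≤ i → i ≤ k → (X i, Y i) ∈ E := fun i h1 h2 => h3 (k - i) (by omega)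
  have hstep : ∀ i, 1 ≤ i → i < k →
      (src (q (i + 1)) → X (i + 1) = X i ∧ Ins (X i) (Y (i + 1)) (Y i)) ∧
      (¬ src (q (i + 1)) → Y (i + 1) = Y i ∧ Ins (X i) (X (i + 1)) (Y i)) := by
    intro i h1 h2
    have h := h4 (k - (i + 1)) (by omega)
    have e1 : k - (k - (i + 1)) = i + 1 := by omega
    have e2 : k - (i + 1) + 1 = k - i := by omega
    rw [e2] at h
    simp only [e1] at h
    exact h
  have hne : ∀ i, 1 ≤ i → i ≤ k → X i ≠ Y i := by
    intro i h1 h2 h
    have := hE' i h1 h2
    rw [h] at this
    exact hloop _ this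
  have hq0 : ∀ i, 1 ≤ i → i ≤ k → q i < i := by
    intro i h1
    induction i, h1 using Nat.le_induction with
    | base => intro _; rw [hq1]; omega
    | succ i hi ih =>
      intro hle
      have := ih (by omega)
      rcases hq i hi (by omega) with h | h <;> omega
  set F : ℕ → Fin n := fun i => if i = 0 then (if src 0 then X 1 else Y 1) else
    (if src i then X i else Y i) with hF
  have F0 : F 0 = if src 0 then X 1 else Y 1 := by simp [hF]
  have Fi : ∀ i, 1 ≤ i → F i = if src i then X i else Y i := by
    intro i hi
    have : i ≠ 0 := by omega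
    simp [hF, this]
  -- the parent is the other endpoint
  have hpar : ∀ i, 1 ≤ i → i ≤ k → F (q i) = if src (q i) then X i else Y i := by
    intro i h1
    induction i, h1 using Nat.le_induction with
    | base => intro _; rw [hq1, F0]
    | succ i hi ih =>
      intro hle
      have hs := hstep i hi (by omega)
      have hold : F (q (i + 1)) = if src (q (i + 1)) then X i else Y i := by
        rcases hq i hi (by omega) with h | h
        · rw [h, Fi i hi]
        · rw [h]
          exact ih (by omega)
      rw [hold]
      by_cases hsr : src (q (i + 1))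
      · rw [if_pos hsr, if_pos hsr, (hs.1 hsr).1]
      · rw [if_neg hsr, if_neg hsr, (hs.2 hsr).1]
  have hnest : ∀ i z, 1 ≤ i → i < k → Ins (X (i + 1)) z (Y (i + 1)) → Ins (X i) z (Y i) := by
    intro i z hi hik hz
    have hs := hstep i hi hik
    by_cases hsr : src (q (i + 1))
    · obtain ⟨e, h⟩ := hs.1 hsr
      rw [e] at hz
      exact ins_left h hz
    · obtain ⟨e, h⟩ := hs.2 hsr
      rw [e] at hz
      exact ins_right h hz
  have hnew : ∀ i, 1 ≤ i → i < k → Ins (X i) (F (i + 1)) (Y i) := by
    intro i hi hik
    have hs := hstep i hi hik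
    rw [Fi (i + 1) (by omega)]
    by_cases hsr : src (q (i + 1))
    · have : ¬ src (i + 1) := by
        intro h
        exact (hsrc (i + 1) (by omega) (by omega)).1 h hsr
      rw [if_neg this]
      exact (hs.1 hsr).2
    · have : src (i + 1) := (hsrc (i + 1) (by omega) (by omega)).2 hsr
      rw [if_pos this]
      exact (hs.2 hsr).2
  have hout : ∀ i, 1 ≤ i → i ≤ k → ∀ j, j ≤ i → ¬ Ins (X i) (F j) (Y i) := by
    intro i h1
    induction i, h1 using Nat.le_induction with
    | base =>
      intro _ j hj
      have hj' : j = 0 ∨ j = 1 := by omega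
      rcases hj' with rfl | rfl
      · rw [F0]
        split_ifs
        · exact not_ins_left _ _
        · exact not_ins_right _ _
      · rw [Fi 1 le_rfl]
        split_ifs
        · exact not_ins_left _ _
        · exact not_ins_right _ _
    | succ i hi ih =>
      intro hle j hj
      rcases Nat.lt_or_ge i j with h | h
      · have : j = i + 1 := by omega
        subst this
        rw [Fi (i + 1) (by omega)]
        split_ifs
        · exact not_ins_left _ _
        · exact not_ins_right _ _
      · intro hins
        exact ih (by omega) j h (hnest i _ hi (by omega) hins)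
  refine ⟨F, ?_, ?_⟩
  · have hlt : ∀ i j, i < j → j ≤ k → F i ≠ F j := by
      intro i j hij hjk h
      rcases Nat.lt_or_ge 1 j with h1 | h1
      · have a := hnew (j - 1) (by omega) (by omega)
        have b := hout (j - 1) (by omega) (by omega) i (by omega)
        have e : j - 1 + 1 = j := by omega
        rw [e, ← h] at a
        exact b a
      · have hj : j = 1 := by omega
        have hi : i = 0 := by omega
        subst hj hi
        have hs := hsrc 1 le_rfl hk
        rw [hq1] at hs
        rw [F0, Fi 1 le_rfl] at h
        have hn := hne 1 le_rfl hk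
        by_cases h0 : src 0
        · have h1' : ¬ src 1 := fun h => (hs.1 h) h0
          rw [if_pos h0, if_neg h1'] at h
          exact hn h
        · have h1' : src 1 := hs.2 h0
          rw [if_neg h0, if_pos h1'] at h
          exact hn h.symm
    intro i j hi hj h
    rcases lt_trichotomy i j with hl | hl | hl
    · exact absurd h (hlt i j hl hj)
    · exact hl
    · exact absurd h.symm (hlt j i hl hi)
  · intro i h1 h2
    have hp := hpar i h1 h2
    have hi := Fi i h1
    have hs := hsrc i h1 h2
    constructor
    · intro h
      have h' : ¬ src (q i) := hs.1 h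
      rw [if_pos h] at hi
      rw [if_neg h'] at hp
      rw [hi, hp]
      exact hE' i h1 h2
    · intro h
      have h' : src (q i) := by
        by_contra hc
        exact h (hs.2 hc)
      rw [if_neg h] at hi
      rw [if_pos h'] at hp
      rw [hi, hp]
      exact hE' i h1 h2

end Pool.Agent.Helper408.Cat
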