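import Mathlib
import Pool.Agent.Helper408.Cat

set_option autoImplicit false

/-!
# Caterpillars have a zigzag order
-/

namespace Pool.Agent.Helper408.Tree

open Finset
open scoped Classical

/-- A caterpillar: a tree with a path such that every vertex lies on the path or is adjacent to a
vertex of the path. -/
def IsCaterpillar {W : Type} (G : SimpleGraph W) : Prop :=
  G.IsTree ∧ ∃ (u w : W) (p : G.Walk u w), p.IsPath ∧
    ∀ v, v ∈ p.support ∨ ∃ s ∈ p.support, G.Adj v s

theorem cat_order (k : ℕ) (G : SimpleGraph (Fin (k + 1))) (hG : IsCaterpillar G) :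
    ∃ (w : ℕ → Fin (k + 1)) (pos : Fin (k + 1) → ℕ) (q : ℕ → ℕ),
      (∀ v, pos v ≤ k) ∧ (∀ v, w (pos v) = v) ∧ (∀ i, i ≤ k → pos (w i) = i) ∧
      (1 ≤ k → q 1 = 0) ∧
      (∀ i, 1 ≤ i → i < k → q (i + 1) = i ∨ q (i + 1) = q i) ∧
      (∀ i, 1 ≤ i → i ≤ k → q i < i ∧ G.Adj (w i) (w (q i))) ∧
      ∀ a b, G.Adj a b → ∃ i, 1 ≤ i ∧ i ≤ k ∧
        ((a = w i ∧ b = w (q i)) ∨ (b = w i ∧ a = w (q i))) := by
  obtain ⟨htree, u, u', p, hp, hdom⟩ := hG
  set s : ℕ → Fin (k + 1) := p.getVert with hs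
  set L := p.length with hL
  have hsinj : ∀ i j, i ≤ L → j ≤ L → s i = s j → i = j := by
    intro i j hi hj h
    exact hp.getVert_injOn hi hj h
  have hssup : ∀ i, s i ∈ p.support := fun i => p.getVert_mem_support i
  have hex : ∀ v ∈ p.support, ∃ j, j ≤ L ∧ v = s j := by
    intro v hv
    obtain ⟨j, hj, hjL⟩ := SimpleGraph.Walk.mem_support_iff_exists_getVert.mp hv
    exact ⟨j, hjL, hj.symm⟩
  have hch : ∀ v : Fin (k + 1), ∃ (c : ℕ) (r : Fin (k + 1)),
      (∃ j, j ≤ L ∧ v = s j ∧ c = 2 * j ∧ r = s (j - 1)) ∨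
      (∃ j, j ≤ L ∧ c = 2 * j + 1 ∧ r = s j ∧ G.Adj v (s j) ∧ v ∉ p.support) := by
    intro v
    by_cases hv : v ∈ p.support
    · obtain ⟨j, hj, hvj⟩ := hex v hv
      exact ⟨2 * j, s (j - 1), Or.inl ⟨j, hj, hvj, rfl, rfl⟩⟩
    · rcases hdom v with h | ⟨t, ht, hadj⟩
      · exact absurd h hv
      · obtain ⟨j, hj, htj⟩ := hex t ht
        exact ⟨2 * j + 1, s j, Or.inr ⟨j, hj, rfl, rfl, htj ▸ hadj, hv⟩⟩
  choose key P hkey using hch
  have hkey_s : ∀ j, j ≤ L → key (s j) = 2 * j := by
    intro j hj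
    rcases hkey (s j) with ⟨j', h1, h2, h3, -⟩ | ⟨j', -, -, -, -, h5⟩
    · have := hsinj j j' hj h1 h2
      rw [h3, this]
    · exact absurd (hssup j) h5
  have hkey_even : ∀ v j, key v = 2 * j → v = s j ∧ j ≤ L ∧ P v = s (j - 1) := by
    intro v j h
    rcases hkey v with ⟨j', h1, h2, h3, h4⟩ | ⟨j', h1, h2, -, -, -⟩
    · have : j' = j := by omega
      subst this
      exact ⟨h2, h1, h4⟩
    · omega
  have hkey_odd : ∀ v j, key v = 2 * j + 1 → P v = s j ∧ G.Adj v (s j) ∧ j ≤ L := by
    intro v j h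
    rcases hkey v with ⟨j', h1, h2, h3, h4⟩ | ⟨j', h1, h2, h3, h4, -⟩
    · omega
    · have : j' = j := by omega
      subst this
      exact ⟨h3, h4, h1⟩
  set σ := Tuple.sort key with hσ
  have hmono : Monotone (key ∘ σ) := Tuple.monotone_sort key
  set w : ℕ → Fin (k + 1) := fun i => σ ⟨min i k, by omega⟩ with hw
  set pos : Fin (k + 1) → ℕ := fun v => (σ.symm v).val with hpos
  have hpos_le : ∀ v, pos v ≤ k := fun v => by
    have := (σ.symm v).isLt
    simp only [hpos]
    omega
  have hwpos : ∀ v, w (pos v) = v := by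
    intro v
    have h := hpos_le v
    have : (⟨min (pos v) k, by omega⟩ : Fin (k + 1)) = σ.symm v := by
      apply Fin.ext
      simp only [hpos] at h ⊢
      omega
    simp only [hw]
    rw [this, Equiv.apply_symm_apply]
  have hposw : ∀ i, i ≤ k → pos (w i) = i := by
    intro i hi
    simp only [hw, hpos, Equiv.symm_apply_apply]
    omega
  have hkm : ∀ i j, i ≤ j → j ≤ k → key (w i) ≤ key (w j) := by
    intro i j hij hj
    exact hmono (show (⟨min i k, by omega⟩ : Fin (k + 1)) ≤ ⟨min j k, by omega⟩ by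
      simp only [Fin.mk_le_mk]; omega)
  have hw0 : w 0 = s 0 := by
    have h0 : key (s 0) = 0 := by simpa using hkey_s 0 (Nat.zero_le _)
    have h1 : key (w 0) ≤ key (w (pos (s 0))) := hkm 0 _ (Nat.zero_le _) (hpos_le _)
    rw [hwpos, h0] at h1
    exact (hkey_even (w 0) 0 (by omega)).1
  -- the parent
  have hparent : ∀ i, 1 ≤ i → i ≤ k → key (P (w i)) < key (w i) ∧ G.Adj (w i) (P (w i)) := by
    intro i h1 h2
    rcases Nat.even_or_odd' (key (w i)) with ⟨j, hj | hj⟩
    · obtain ⟨a1, a2, a3⟩ := hkey_even _ j hj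
      have hj0 : j ≠ 0 := by
        rintro rfl
        rw [← hw0] at a1
        have := congrArg pos a1
        rw [hposw i h2, hposw 0 (Nat.zero_le _)] at this
        omega
      rw [a3, hkey_s (j - 1) (by omega), hj]
      refine ⟨by omega, ?_⟩
      rw [a1]
      have := p.adj_getVert_succ (i := j - 1) (by omega)
      have e : j - 1 + 1 = j := by omega
      rw [e] at this
      exact this.symm
    · obtain ⟨a1, a2, a3⟩ := hkey_odd _ j hj
      rw [a1, hkey_s j a3, hj]
      exact ⟨by omega, a2⟩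
  have hqlt : ∀ i, 1 ≤ i → i ≤ k → pos (P (w i)) < i := by
    intro i h1 h2
    by_contra hge
    have h := (hparent i h1 h2).1
    have := hkm i (pos (P (w i))) (by omega) (hpos_le _)
    rw [hwpos] at this
    omega
  set q : ℕ → ℕ := fun i => pos (P (w i)) with hq
  have hstep : ∀ i, 1 ≤ i → i < k → q (i + 1) = i ∨ q (i + 1) = q i := by
    intro i h1 h2
    have hlt := hqlt (i + 1) (by omega) (by omega)
    have hk1 := hkm i (i + 1) (by omega) (by omega)
    have hk2 := hkm (pos (P (w (i + 1)))) i (by omega) (by omega)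
    rw [hwpos] at hk2
    have hk3 := (hparent (i + 1) (by omega) (by omega)).1
    have goal : P (w (i + 1)) = w i ∨ P (w (i + 1)) = P (w i) := by
      rcases Nat.even_or_odd' (key (w (i + 1))) with ⟨j, hj | hj⟩
      · obtain ⟨a1, a2, a3⟩ := hkey_even _ j hj
        rw [a3, hkey_s (j - 1) (by omega)] at hk2 hk3
        rw [hj] at hk1 hk3
        have hj0 : 1 ≤ j := by omega
        have hne : key (w i) ≠ 2 * j := by
          intro h
          have b1 := (hkey_even _ j h).1
          rw [← b1] at a1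
          have := congrArg pos a1
          rw [hposw i (by omega), hposw (i + 1) (by omega)] at this
          omega
        have hcase : key (w i) = 2 * (j - 1) ∨ key (w i) = 2 * (j - 1) + 1 := by omega
        rcases hcase with h | h
        · left
          rw [a3, (hkey_even _ _ h).1]
        · right
          rw [a3, (hkey_odd _ _ h).1]
      · obtain ⟨a1, a2, a3⟩ := hkey_odd _ j hj
        rw [a1, hkey_s j a3] at hk2 hk3
        rw [hj] at hk1 hk3
        have hcase : key (w i) = 2 * j ∨ key (w i) = 2 * j + 1 := by omega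
        rcases hcase with h | h
        · left
          rw [a1, (hkey_even _ _ h).1]
        · right
          rw [a1, (hkey_odd _ _ h).1]
    rcases goal with h | h
    · left
      simp only [hq]
      rw [h, hposw i (by omega)]
    · right
      simp only [hq]
      rw [h]
  have hadj : ∀ i, 1 ≤ i → i ≤ k → q i < i ∧ G.Adj (w i) (w (q i)) := by
    intro i h1 h2
    refine ⟨hqlt i h1 h2, ?_⟩
    simp only [hq]
    rw [hwpos]
    exact (hparent i h1 h2).2
  refine ⟨w, pos, q, hpos_le, hwpos, hposw, ?_, hstep, hadj, ?_⟩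
  · intro hk
    have := (hadj 1 le_rfl hk).1
    omega
  · -- every edge joins a vertex to its parent
    have hcard := htree.card_edgeFinset
    rw [Fintype.card_fin] at hcard
    have hwinj : ∀ i j, i ≤ k → j ≤ k → w i = w j → i = j := by
      intro i j hi hj h
      have := congrArg pos h
      rwa [hposw i hi, hposw j hj] at this
    have himg : (Finset.Icc 1 k).image (fun i => s(w i, w (q i))) = G.edgeFinset := by
      apply Finset.eq_of_subset_of_card_le
      · intro e he
        obtain ⟨i, hi, rfl⟩ := Finset.mem_image.mp he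
        rw [Finset.mem_Icc] at hi
        rw [SimpleGraph.mem_edgeFinset, SimpleGraph.mem_edgeSet]
        exact (hadj i hi.1 hi.2).2
      · rw [Finset.card_image_of_injOn, Nat.card_Icc]
        · omega
        · intro i hi j hj h
          simp only [Finset.coe_Icc, Set.mem_Icc] at hi hj
          have qi := (hadj i hi.1 hi.2).1
          have qj := (hadj j hj.1 hj.2).1
          rcases Sym2.eq_iff.mp h with ⟨h1, -⟩ | ⟨h1, h2⟩
          · exact hwinj i j hi.2 hj.2 h1
          · have a := hwinj i (q j) hi.2 (by omega) h1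
            have b := hwinj (q i) j (by omega) hj.2 h2
            omega
    intro a b hab
    have : s(a, b) ∈ G.edgeFinset := by
      rw [SimpleGraph.mem_edgeFinset, SimpleGraph.mem_edgeSet]
      exact hab
    rw [← himg] at this
    obtain ⟨i, hi, h⟩ := Finset.mem_image.mp this
    rw [Finset.mem_Icc] at hi
    refine ⟨i, hi.1, hi.2, ?_⟩
    rcases Sym2.eq_iff.mp h with ⟨h1, h2⟩ | ⟨h1, h2⟩
    · exact Or.inl ⟨h1.symm, h2.symm⟩
    · exact Or.inr ⟨h1.symm, h2.symm⟩

/-- **Antidirected caterpillars.** -/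
theorem caterpillar_embed {n : ℕ} (k : ℕ) (hk : 1 ≤ k) (A : Fin (k + 1) → Fin (k + 1) → Prop)
    (hA : IsCaterpillar (SimpleGraph.fromRel A)) (hanti : ∀ a b c, A a b → ¬ A b c)
    (E : Finset (Fin n × Fin n)) (hloop : ∀ v : Fin n, (v, v) ∉ E)
    (hE : (k - 1) * n < E.card) :
    ∃ f : Fin (k + 1) → Fin n, Function.Injective f ∧ ∀ a b, A a b → (f a, f b) ∈ E := by
  obtain ⟨w, pos, q, h1, h2, h3, h4, h5, h6, h7⟩ := cat_order k _ hA
  have hsrc : ∀ i, 1 ≤ i → i ≤ k → ((∃ c, A (w i) c) ↔ ¬ ∃ c, A (w (q i)) c) := by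
    intro i hi1 hi2
    obtain ⟨-, hadj⟩ := h6 i hi1 hi2
    rw [SimpleGraph.fromRel_adj] at hadj
    rcases hadj.2 with h | h
    · constructor
      · rintro - ⟨c, hc⟩
        exact hanti _ _ _ h hc
      · intro _
        exact ⟨_, h⟩
    · constructor
      · rintro ⟨c, hc⟩
        exact absurd hc (hanti _ _ _ h)
      · intro hno
        exact absurd ⟨_, h⟩ hno
  obtain ⟨F, hF1, hF2⟩ := Pool.Agent.Helper408.Cat.embed k hk q (h4 hk) h5
    (fun i => ∃ c, A (w i) c) hsrc E hloop hE
  refine ⟨fun v => F (pos v), ?_, ?_⟩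
  · intro a b hab
    have := hF1 (pos a) (pos b) (h1 a) (h1 b) hab
    rw [← h2 a, ← h2 b, this]
  · intro a b hab
    have hne : a ≠ b := by
      rintro rfl
      exact hanti _ _ _ hab hab
    have hadj : (SimpleGraph.fromRel A).Adj a b := by
      rw [SimpleGraph.fromRel_adj]
      exact ⟨hne, Or.inl hab⟩
    obtain ⟨i, hi1, hi2, h⟩ := h7 a b hadj
    have hq := (h6 i hi1 hi2).1
    rcases h with ⟨rfl, rfl⟩ | ⟨rfl, rfl⟩
    · have := (hF2 i hi1 hi2).1 ⟨_, hab⟩
      simp only
      rw [h3 i hi2, h3 (q i) (by omega)]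
      exact this
    · have := (hF2 i hi1 hi2).2 (fun ⟨c, hc⟩ => hanti _ _ _ hab hc)
      simp only
      rw [h3 i hi2, h3 (q i) (by omega)]
      exact this

end Pool.Agent.Helper408.Tree
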