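import Mathlib
import Pool.Agent.Helper408.Tree

set_option autoImplicit false

/-!
# Transfer to arbitrary finite vertex sets, and the chromatic version
-/

namespace Pool.Agent.Helper408.Final

open Finset Pool.Agent.Helper408.Tree
open scoped Classical

theorem embed_type (k : ℕ) (hk : 1 ≤ k) (V : Type) [Fintype V] (R : V → V → Prop)
    (hloop : ∀ v, ¬ R v v)
    (hcard : (k - 1) * Fintype.card V < Nat.card {p : V × V // R p.1 p.2})
    (A : Fin (k + 1) → Fin (k + 1) → Prop)
    (hA : IsCaterpillar (SimpleGraph.fromRel A)) (hanti : ∀ a b c, A a b → ¬ A b c) :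
    ∃ f : Fin (k + 1) → V, Function.Injective f ∧ ∀ a b, A a b → R (f a) (f b) := by
  set n := Fintype.card V with hn
  let φ : V ≃ Fin n := Fintype.equivFin V
  let E : Finset (Fin n × Fin n) :=
    Finset.univ.filter (fun e => R (φ.symm e.1) (φ.symm e.2))
  have hE : E.card = Nat.card {p : V × V // R p.1 p.2} := by
    rw [Nat.card_eq_fintype_card, Fintype.card_subtype]
    refine Finset.card_bij (fun e _ => (φ.symm e.1, φ.symm e.2)) ?_ ?_ ?_
    · intro e he
      simpa [E] using he
    · intro a _ b _ hab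
      simp only [Prod.mk.injEq, EmbeddingLike.apply_eq_iff_eq] at hab
      exact Prod.ext hab.1 hab.2
    · intro b hb
      refine ⟨(φ b.1, φ b.2), ?_, ?_⟩
      · simpa [E] using hb
      · simp
  obtain ⟨q, hq, h⟩ := caterpillar_embed k hk A hA hanti E
    (fun v hv => hloop (φ.symm v) (by simpa [E] using hv)) (by rw [hE]; exact hcard)
  refine ⟨fun j => φ.symm (q j), φ.symm.injective.comp hq, fun a b hab => ?_⟩
  have := h a b hab
  simpa [E] using this

/-- greedy colouring -/
theorem colorable_of_degenerate {V : Type} [Fintype V] (G : SimpleGraph V) [DecidableRel G.Adj]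
    (d : ℕ)
    (h : ∀ S : Finset V, S.Nonempty → ∃ v ∈ S, (S.filter (fun w => G.Adj v w)).card ≤ d) :
    G.Colorable (d + 1) := by
  have key : ∀ (m : ℕ) (S : Finset V), S.card = m →
      ∃ c : V → Fin (d + 1), ∀ a ∈ S, ∀ b ∈ S, G.Adj a b → c a ≠ c b := by
    intro m
    induction m with
    | zero =>
      intro S hS
      have : S = ∅ := Finset.card_eq_zero.mp hS
      subst this
      exact ⟨fun _ => 0, by simp⟩
    | succ m ih =>
      intro S hS
      have hne : S.Nonempty := Finset.card_pos.mp (by omega)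
      obtain ⟨v, hv, hd⟩ := h S hne
      obtain ⟨c, hc⟩ := ih (S.erase v) (by rw [Finset.card_erase_of_mem hv, hS]; rfl)
      obtain ⟨x, hx⟩ : ∃ x : Fin (d + 1), x ∉ (S.filter (fun w => G.Adj v w)).image c := by
        by_contra hno
        push Not at hno
        have h1 : (Finset.univ : Finset (Fin (d + 1))) ⊆
            (S.filter (fun w => G.Adj v w)).image c := fun x _ => hno x
        have h2 := Finset.card_le_card h1
        have h3 := Finset.card_image_le (s := S.filter (fun w => G.Adj v w)) (f := c)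
        simp only [Finset.card_univ, Fintype.card_fin] at h2
        omega
      refine ⟨Function.update c v x, ?_⟩
      intro a ha b hb hab
      by_cases hav : a = v
      · subst hav
        have hba : b ≠ a := fun h => G.loopless.irrefl a (h ▸ hab)
        rw [Function.update_self, Function.update_of_ne hba]
        intro hxe
        apply hx
        rw [Finset.mem_image]
        exact ⟨b, Finset.mem_filter.mpr ⟨hb, hab⟩, hxe.symm⟩
      · by_cases hbv : b = v
        · subst hbv
          rw [Function.update_self, Function.update_of_ne hav]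
          intro hxe
          apply hx
          rw [Finset.mem_image]
          exact ⟨a, Finset.mem_filter.mpr ⟨ha, hab.symm⟩, hxe⟩
        · rw [Function.update_of_ne hav, Function.update_of_ne hbv]
          exact hc a (Finset.mem_erase.mpr ⟨hav, ha⟩) b (Finset.mem_erase.mpr ⟨hbv, hb⟩) hab
  obtain ⟨c, hc⟩ := key _ Finset.univ rfl
  exact ⟨SimpleGraph.Coloring.mk c (fun {a b} hab =>
    hc a (Finset.mem_univ _) b (Finset.mem_univ _) hab)⟩

/-- the chromatic version -/
theorem chromatic_embed (k n : ℕ) (D : Fin n → Fin n → Prop) (hk : 1 ≤ k)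
    (hor : ∀ x y, D x y → ¬ D y x)
    (hchi : ((2 * k : ℕ) : ℕ∞) ≤ (SimpleGraph.fromRel D).chromaticNumber)
    (A : Fin (k + 1) → Fin (k + 1) → Prop)
    (hA : IsCaterpillar (SimpleGraph.fromRel A)) (hanti : ∀ a b c, A a b → ¬ A b c) :
    ∃ f : Fin (k + 1) → Fin n, Function.Injective f ∧ ∀ a b, A a b → D (f a) (f b) := by
  set G := SimpleGraph.fromRel D with hG
  have hloop : ∀ v, ¬ D v v := fun v h => hor v v h h
  have hadj : ∀ a b, G.Adj a b ↔ (D a b ∨ D b a) := by
    intro a b
    rw [hG, SimpleGraph.fromRel_adj]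
    constructor
    · exact fun h => h.2
    · intro h
      refine ⟨?_, h⟩
      rintro rfl
      rcases h with h | h <;> exact hloop _ h
  have hnc : ¬ G.Colorable (2 * k - 2 + 1) := by
    intro hc
    have h1 := hc.chromaticNumber_le
    have h2 := hchi.trans h1
    have h3 : 2 * k ≤ 2 * k - 2 + 1 := by exact_mod_cast h2
    omega
  obtain ⟨S, hS, hdeg⟩ : ∃ S : Finset (Fin n), S.Nonempty ∧
      ∀ v ∈ S, 2 * k - 1 ≤ (S.filter (fun w => G.Adj v w)).card := by
    by_contra hno
    push Not at hno
    apply hnc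
    apply colorable_of_degenerate
    intro S hS
    obtain ⟨v, hv, h⟩ := hno S hS
    exact ⟨v, hv, by omega⟩
  -- arcs inside `S`
  let E₁ : Finset (Fin n × Fin n) := (S ×ˢ S).filter (fun e => D e.1 e.2)
  let E₂ : Finset (Fin n × Fin n) := (S ×ˢ S).filter (fun e => D e.2 e.1)
  have hE12 : E₁.card = E₂.card := by
    refine Finset.card_bij (fun e _ => (e.2, e.1)) ?_ ?_ ?_
    · intro e he
      simp only [E₁, E₂, Finset.mem_filter, Finset.mem_product] at he ⊢
      exact ⟨⟨he.1.2, he.1.1⟩, he.2⟩
    · intro a _ b _ hab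
      simp only [Prod.mk.injEq] at hab
      exact Prod.ext hab.2 hab.1
    · intro b hb
      simp only [E₁, E₂, Finset.mem_filter, Finset.mem_product] at hb ⊢
      exact ⟨(b.2, b.1), ⟨⟨hb.1.2, hb.1.1⟩, hb.2⟩, rfl⟩
  have hdisj : Disjoint E₁ E₂ := by
    rw [Finset.disjoint_left]
    intro e h1 h2
    simp only [E₁, E₂, Finset.mem_filter] at h1 h2
    exact hor _ _ h1.2 h2.2
  have hsum : ∑ v ∈ S, (S.filter (fun w => G.Adj v w)).card = (E₁ ∪ E₂).card := by
    have : (E₁ ∪ E₂) = (S ×ˢ S).filter (fun e => G.Adj e.1 e.2) := by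
      ext e
      simp only [E₁, E₂, Finset.mem_union, Finset.mem_filter, hadj]
      tauto
    rw [this, Finset.card_filter, Finset.sum_product]
    refine Finset.sum_congr rfl fun v _ => ?_
    rw [Finset.card_filter]
  have hlow : S.card * (2 * k - 1) ≤ 2 * E₁.card := by
    have h1 : S.card * (2 * k - 1) ≤ ∑ v ∈ S, (S.filter (fun w => G.Adj v w)).card := by
      rw [← smul_eq_mul]
      exact Finset.card_nsmul_le_sum S _ _ hdeg
    rw [hsum, Finset.card_union_of_disjoint hdisj, ← hE12] at h1
    omega
  have hcardE : Nat.card {p : S × S // D p.1 p.2} = E₁.card := by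
    rw [Nat.card_eq_fintype_card, Fintype.card_subtype]
    refine Finset.card_bij (fun e _ => ((e.1 : Fin n), (e.2 : Fin n))) ?_ ?_ ?_
    · intro e he
      simp only [E₁, Finset.mem_filter, Finset.mem_product, Finset.mem_univ, true_and] at he ⊢
      exact ⟨⟨e.1.2, e.2.2⟩, he⟩
    · intro a _ b _ hab
      simp only [Prod.mk.injEq] at hab
      exact Prod.ext (Subtype.ext hab.1) (Subtype.ext hab.2)
    · intro b hb
      simp only [E₁, Finset.mem_filter, Finset.mem_product] at hb
      exact ⟨(⟨b.1, hb.1.1⟩, ⟨b.2, hb.1.2⟩), by simpa using hb.2, rfl⟩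
  have hSpos : 0 < S.card := Finset.card_pos.mpr hS
  have hlt : (k - 1) * Fintype.card S < Nat.card {p : S × S // D p.1 p.2} := by
    rw [hcardE, Fintype.card_coe]
    obtain ⟨m, rfl⟩ : ∃ m, k = m + 1 := ⟨k - 1, by omega⟩
    have e1 : 2 * (m + 1) - 1 = 2 * m + 1 := by omega
    have e2 : m + 1 - 1 = m := by omega
    rw [e1] at hlow
    rw [e2]
    nlinarith
  obtain ⟨f, hf, h⟩ := embed_type k hk S (fun a b => D a b) (fun v => hloop v) hlt A hA hanti
  exact ⟨fun a => f a, Subtype.val_injective.comp hf, h⟩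

end Pool.Agent.Helper408.Final
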