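import Mathlib
import Pool.Agent.Helper343.LP

set_option autoImplicit false

/-!
# Antidirected paths in digraphs

Every digraph with `n` vertices and more than `(k-1) n` arcs contains every antidirected path
with `k` arcs.
-/

namespace Pool.Agent.Helper408.Anti

open Finset
open scoped Classical

variable {n : ℕ}

/-- `q` is an antidirected path with `i` arcs, `q 0 → q 1 ← q 2 → ...`, ending at `v`, whose
other vertices lie in `S` -/
def IsP (E : Finset (Fin n × Fin n)) (S : Finset (Fin n)) (v : Fin n) (i : ℕ) : Prop :=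
  ∃ q : Fin (i + 1) → Fin n, Function.Injective q ∧ q (Fin.last i) = v ∧
    (∀ j : Fin i, q j.castSucc ∈ S) ∧
    ∀ j : Fin i, (Even (j : ℕ) → (q j.castSucc, q j.succ) ∈ E) ∧
      (¬ Even (j : ℕ) → (q j.succ, q j.castSucc) ∈ E)

/-- one plus the largest `i` of parity `b` such that `IsP E S v i`, zero if there is none -/
noncomputable def L (E : Finset (Fin n × Fin n)) (S : Finset (Fin n)) (b : Prop) (v : Fin n) : ℕ :=
  (Finset.range (n + 1)).sup (fun i => if (Even i ↔ b) ∧ IsP E S v i then i + 1 else 0)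

theorem isP_zero (E : Finset (Fin n × Fin n)) (S : Finset (Fin n)) (v : Fin n) : IsP E S v 0 := by
  refine ⟨fun _ => v, ?_, rfl, ?_, ?_⟩
  · intro a b _
    exact (Fin.fin_one_eq_zero a).trans (Fin.fin_one_eq_zero b).symm
  · intro i
    exact i.elim0
  · intro i
    exact i.elim0

theorem isP_le {E : Finset (Fin n × Fin n)} {S : Finset (Fin n)} {v : Fin n} {k : ℕ}
    (h : IsP E S v k) : k + 1 ≤ n := by
  obtain ⟨p, hp, -⟩ := h
  have := Fintype.card_le_of_injective p hp
  simpa only [Fintype.card_fin] using this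

theorem le_L {E : Finset (Fin n × Fin n)} {S : Finset (Fin n)} {b : Prop} {v : Fin n} {i : ℕ}
    (hb : Even i ↔ b) (h : IsP E S v i) : i + 1 ≤ L E S b v := by
  have h1 := isP_le h
  have h2 : (fun i => if (Even i ↔ b) ∧ IsP E S v i then i + 1 else 0) i = i + 1 := by
    simp only [hb, h, and_self, if_true]
  rw [← h2]
  exact Finset.le_sup (f := fun i => if (Even i ↔ b) ∧ IsP E S v i then i + 1 else 0)
    (Finset.mem_range.mpr (by omega))

theorem L_cases (E : Finset (Fin n × Fin n)) (S : Finset (Fin n)) (b : Prop) (v : Fin n) :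
    L E S b v = 0 ∨ ∃ i, (Even i ↔ b) ∧ IsP E S v i ∧ L E S b v = i + 1 := by
  obtain ⟨i, -, hi⟩ := Finset.exists_mem_eq_sup (Finset.range (n + 1)) ⟨0, by simp⟩
    (fun i => if (Even i ↔ b) ∧ IsP E S v i then i + 1 else 0)
  by_cases h : (Even i ↔ b) ∧ IsP E S v i
  · right
    refine ⟨i, h.1, h.2, ?_⟩
    rw [L, hi]
    simp only [h, and_self, if_true]
  · left
    rw [L, hi]
    simp only [h, if_false]

theorem isP_mono {E : Finset (Fin n × Fin n)} {S T : Finset (Fin n)} (hST : S ⊆ T) {v : Fin n}
    {i : ℕ} (h : IsP E S v i) : IsP E T v i := by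
  obtain ⟨q, h1, h2, h3, h4⟩ := h
  exact ⟨q, h1, h2, fun j => hST (h3 j), h4⟩

theorem L_mono {E : Finset (Fin n × Fin n)} {S T : Finset (Fin n)} (hST : S ⊆ T) (b : Prop)
    (v : Fin n) : L E S b v ≤ L E T b v := by
  rcases L_cases E S b v with h | ⟨i, hb, hi, h⟩
  · omega
  · rw [h]
    exact le_L hb (isP_mono hST hi)

/-- extension of a path by one vertex -/
theorem isP_step {E : Finset (Fin n × Fin n)} {S : Finset (Fin n)} {x y : Fin n} {i : ℕ}
    (hne : x ≠ y) (h : IsP E (S.erase y) x i)
    (he : (Even i → (x, y) ∈ E) ∧ (¬ Even i → (y, x) ∈ E)) :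
    IsP E (insert x S) y (i + 1) := by
  obtain ⟨q, h1, h2, h3, h4⟩ := h
  refine ⟨Fin.snoc q y, ?_, ?_, ?_, ?_⟩
  · rw [Fin.snoc_injective_iff]
    refine ⟨h1, ?_⟩
    rintro ⟨j, hj⟩
    induction j using Fin.lastCases with
    | last => exact hne (by rw [← hj, h2])
    | cast j =>
      have := h3 j
      rw [hj] at this
      exact Finset.notMem_erase y S this
  · simp
  · intro j
    rw [Fin.snoc_castSucc]
    induction j using Fin.lastCases with
    | last => rw [h2]; exact Finset.mem_insert_self x S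
    | cast j => exact Finset.mem_insert_of_mem (Finset.mem_of_mem_erase (h3 j))
  · intro j
    rw [Fin.snoc_castSucc]
    induction j using Fin.lastCases with
    | last =>
      rw [Fin.succ_last, Fin.snoc_last, h2]
      simpa using he
    | cast j =>
      rw [← Fin.castSucc_succ, Fin.snoc_castSucc]
      simpa using h4 j

theorem step1 {E : Finset (Fin n × Fin n)} (S : Finset (Fin n)) {x y : Fin n}
    (hxy : (x, y) ∈ E) (hne : x ≠ y) :
    L E (S.erase y) True x + 1 ≤ L E (insert x S) False y := by
  rcases L_cases E (S.erase y) True x with h | ⟨i, hb, hi, h⟩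
  · exfalso
    have := le_L (E := E) (S := S.erase y) (b := True) (v := x) (i := 0) (by simp)
      (isP_zero _ _ _)
    omega
  · rw [h]
    have hev : Even i := by simpa using hb
    have := isP_step hne hi ⟨fun _ => hxy, fun h => absurd hev h⟩
    exact le_L (by simpa [Nat.even_add_one] using hev) this

theorem step2 {E : Finset (Fin n × Fin n)} (S : Finset (Fin n)) {x y : Fin n}
    (hxy : (x, y) ∈ E) (hne : x ≠ y) :
    L E (S.erase x) False y + 1 ≤ L E (insert y S) True x := by
  rcases L_cases E (S.erase x) False y with h | ⟨i, hb, hi, h⟩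
  · rw [h]
    exact le_L (E := E) (S := insert y S) (b := True) (v := x) (i := 0) (by simp)
      (isP_zero _ _ _)
  · rw [h]
    have hev : ¬ Even i := by simpa using hb
    have := isP_step hne.symm hi ⟨fun h => absurd h hev, fun _ => hxy⟩
    exact le_L (by simpa [Nat.even_add_one] using hev) this

/-- the sum over the vertices -/
noncomputable def F (E : Finset (Fin n × Fin n)) (S : Finset (Fin n)) : ℝ :=
  ∑ v, ((L E S True v : ℝ) + (L E S False v : ℝ))

theorem pointwise (E : Finset (Fin n × Fin n)) (hloop : ∀ v : Fin n, (v, v) ∉ E)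
    (S : Finset (Fin n)) :
    2 * (E.card : ℝ) ≤ ∑ x, (F E (insert x S) - F E (S.erase x)) := by
  have h1 : 2 * (E.card : ℝ) ≤
      ∑ e ∈ E, (((L E (insert e.2 S) True e.1 : ℝ) - (L E (S.erase e.2) True e.1 : ℝ)) +
        ((L E (insert e.1 S) False e.2 : ℝ) - (L E (S.erase e.1) False e.2 : ℝ))) := by
    have : 2 * (E.card : ℝ) = ∑ e ∈ E, (2 : ℝ) := by simp [mul_comm]
    rw [this]
    refine Finset.sum_le_sum fun e he => ?_
    have hne : e.1 ≠ e.2 := by
      intro h
      apply hloop e.1
      have : e = (e.1, e.1) := Prod.ext rfl h.symm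
      rw [← this]
      exact he
    have a1 := step1 (E := E) S (x := e.1) (y := e.2) he hne
    have a2 := step2 (E := E) S (x := e.1) (y := e.2) he hne
    have a1' : (L E (S.erase e.2) True e.1 : ℝ) + 1 ≤ (L E (insert e.1 S) False e.2 : ℝ) := by
      exact_mod_cast a1
    have a2' : (L E (S.erase e.1) False e.2 : ℝ) + 1 ≤ (L E (insert e.2 S) True e.1 : ℝ) := by
      exact_mod_cast a2
    linarith
  have mono : ∀ (b : Prop) (x v : Fin n),
      (L E (S.erase x) b v : ℝ) ≤ (L E (insert x S) b v : ℝ) := by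
    intro b x v
    exact_mod_cast L_mono ((Finset.erase_subset _ _).trans (Finset.subset_insert _ _)) b v
  have h3 : ∑ e ∈ E, (((L E (insert e.2 S) True e.1 : ℝ) - (L E (S.erase e.2) True e.1 : ℝ)) +
        ((L E (insert e.1 S) False e.2 : ℝ) - (L E (S.erase e.1) False e.2 : ℝ))) ≤
      ∑ e : Fin n × Fin n,
        (((L E (insert e.2 S) True e.1 : ℝ) - (L E (S.erase e.2) True e.1 : ℝ)) +
        ((L E (insert e.1 S) False e.2 : ℝ) - (L E (S.erase e.1) False e.2 : ℝ))) := by
    refine Finset.sum_le_sum_of_subset_of_nonneg (Finset.subset_univ _) fun e _ _ => ?_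
    have := mono True e.2 e.1
    have := mono False e.1 e.2
    linarith
  have h5 : ∑ e : Fin n × Fin n,
      ((L E (insert e.2 S) True e.1 : ℝ) - (L E (S.erase e.2) True e.1 : ℝ)) =
      ∑ x, ∑ v, ((L E (insert x S) True v : ℝ) - (L E (S.erase x) True v : ℝ)) := by
    rw [Fintype.sum_prod_type_right]
  have h6 : ∑ e : Fin n × Fin n,
      ((L E (insert e.1 S) False e.2 : ℝ) - (L E (S.erase e.1) False e.2 : ℝ)) =
      ∑ x, ∑ v, ((L E (insert x S) False v : ℝ) - (L E (S.erase x) False v : ℝ)) := by
    rw [Fintype.sum_prod_type]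
  have h8 : ∑ x, (F E (insert x S) - F E (S.erase x)) =
      ∑ x, ∑ v, ((L E (insert x S) True v : ℝ) - (L E (S.erase x) True v : ℝ)) +
      ∑ x, ∑ v, ((L E (insert x S) False v : ℝ) - (L E (S.erase x) False v : ℝ)) := by
    rw [← Finset.sum_add_distrib]
    refine Finset.sum_congr rfl fun x _ => ?_
    rw [F, F, ← Finset.sum_sub_distrib, ← Finset.sum_add_distrib]
    refine Finset.sum_congr rfl fun v _ => ?_
    ring
  rw [h8, ← h5, ← h6, ← Finset.sum_add_distrib]
  exact h1.trans h3

theorem F_empty (E : Finset (Fin n × Fin n)) : F E ∅ = n := by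
  have h : ∀ v : Fin n, (L E ∅ True v : ℝ) + (L E ∅ False v : ℝ) = 1 := by
    intro v
    have key : ∀ i, IsP E ∅ v i → i = 0 := by
      intro i hi
      obtain ⟨q, -, -, h3, -⟩ := hi
      by_contra h0
      have := h3 ⟨0, by omega⟩
      simp at this
    have hT : L E ∅ True v = 1 := by
      rcases L_cases E ∅ True v with h | ⟨i, hb, hi, h⟩
      · have := le_L (E := E) (S := ∅) (b := True) (v := v) (i := 0) (by simp)
          (isP_zero _ _ _)
        omega
      · rw [h, key i hi]
    have hF : L E ∅ False v = 0 := by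
      rcases L_cases E ∅ False v with h | ⟨i, hb, hi, h⟩
      · exact h
      · rw [key i hi] at hb
        simp at hb
    rw [hT, hF]
    norm_num
  rw [F, Finset.sum_congr rfl fun v _ => h v]
  simp

/-- counting bound -/
theorem main_bound (E : Finset (Fin n × Fin n)) (hloop : ∀ v : Fin n, (v, v) ∉ E) :
    2 * (E.card : ℝ) + n ≤ F E univ := by
  have h := Pool.Agent.Helper343.LP.averaging (n := n) (F E)
  have hc : ∀ S : Finset (Fin n), (0 : ℝ) < (n.choose S.card : ℝ) := by
    intro S
    have : S.card ≤ n := by simpa using Finset.card_le_univ S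
    exact_mod_cast Nat.choose_pos this
  have h1 : ∑ S : Finset (Fin n), ((n.choose S.card : ℝ))⁻¹ * (2 * (E.card : ℝ)) ≤
      ∑ S : Finset (Fin n), ∑ x, ((n.choose S.card : ℝ))⁻¹ *
        (F E (insert x S) - F E (S.erase x)) := by
    refine Finset.sum_le_sum fun S _ => ?_
    rw [← Finset.mul_sum]
    exact mul_le_mul_of_nonneg_left (pointwise E hloop S) (inv_nonneg.mpr (hc S).le)
  have h2 : ∑ S : Finset (Fin n), ((n.choose S.card : ℝ))⁻¹ = (n : ℝ) + 1 := by
    have : ∑ S : Finset (Fin n), ((n.choose S.card : ℝ))⁻¹ =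
        ∑ S ∈ (univ : Finset (Fin n)).powerset, ((n.choose S.card : ℝ))⁻¹ := by
      simp
    rw [this, Finset.sum_powerset_apply_card (fun k => ((n.choose k : ℝ))⁻¹)]
    simp only [Finset.card_univ, Fintype.card_fin]
    have h3 : ∀ m ∈ Finset.range (n + 1), (n.choose m) • ((n.choose m : ℝ))⁻¹ = 1 := by
      intro m hm
      rw [nsmul_eq_mul]
      have : (0 : ℝ) < (n.choose m : ℝ) := by
        exact_mod_cast Nat.choose_pos (by simpa using Nat.lt_succ_iff.mp (Finset.mem_range.mp hm))
      exact mul_inv_cancel₀ this.ne'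
    rw [Finset.sum_congr rfl h3]
    simp
  rw [← Finset.sum_mul, h2, h, F_empty] at h1
  have hpos : (0 : ℝ) < (n : ℝ) + 1 := by positivity
  have := le_of_mul_le_mul_left h1 hpos
  linarith

/-- a path with `k` arcs exists when there are more than `(k-1) n` arcs -/
theorem exists_path (E : Finset (Fin n × Fin n)) (hloop : ∀ v : Fin n, (v, v) ∉ E) (k : ℕ)
    (hk : 1 ≤ k) (hE : (k - 1) * n < E.card) :
    ∃ q : Fin (k + 1) → Fin n, Function.Injective q ∧
      ∀ j : Fin k, (Even (j : ℕ) → (q j.castSucc, q j.succ) ∈ E) ∧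
        (¬ Even (j : ℕ) → (q j.succ, q j.castSucc) ∈ E) := by
  by_contra hno
  have key : ∀ (v : Fin n) (i : ℕ), IsP E univ v i → i < k := by
    intro v i hi
    by_contra hle
    have hki : k ≤ i := by omega
    apply hno
    obtain ⟨q, h1, -, -, h4⟩ := hi
    refine ⟨fun j => q (Fin.castLE (by omega) j), ?_, ?_⟩
    · intro a b hab
      have := h1 hab
      exact Fin.castLE_injective (by omega) this
    · intro j
      have := h4 (Fin.castLE hki j)
      exact this
  have hb : ∀ v : Fin n, (L E univ True v : ℝ) + (L E univ False v : ℝ) ≤ 2 * k - 1 := by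
    intro v
    have hpar : L E univ True v + L E univ False v + 1 ≤ 2 * k := by
      rcases L_cases E univ True v with h | ⟨i, hb, hi, h⟩ <;>
      rcases L_cases E univ False v with h' | ⟨i', hb', hi', h'⟩
      · omega
      · have := key v i' hi'
        omega
      · have := key v i hi
        omega
      · have a1 := key v i hi
        have a2 := key v i' hi'
        have hne : i ≠ i' := by
          rintro rfl
          simp_all
        omega
    have : ((L E univ True v + L E univ False v + 1 : ℕ) : ℝ) ≤ ((2 * k : ℕ) : ℝ) := by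
      exact_mod_cast hpar
    push_cast at this
    linarith
  have hF : F E univ ≤ n * (2 * k - 1) := by
    rw [F]
    calc ∑ v, ((L E univ True v : ℝ) + (L E univ False v : ℝ)) ≤ ∑ _v : Fin n, (2 * (k : ℝ) - 1) :=
          Finset.sum_le_sum fun v _ => hb v
      _ = n * (2 * k - 1) := by simp; ring
  have hm := main_bound E hloop
  have hE' : ((k - 1 : ℕ) : ℝ) * n + 1 ≤ E.card := by exact_mod_cast hE
  rw [Nat.cast_sub hk] at hE'
  push_cast at hE'
  nlinarith

end Pool.Agent.Helper408.Anti
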